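import Mathlib

open Filter Topology

namespace Pool.Agent.H96pack

noncomputable section

/-- The space of absolutely summable real sequences. -/
abbrev L1 : Type := lp (fun _ : ℕ => ℝ) 1

/-- The `ℓ₂`-sum of `L1` and the real line. -/
abbrev X1 : Type := WithLp 2 (L1 × ℝ)

/-- Elements of the space from their two components. -/
def mk (y : L1) (t : ℝ) : X1 := WithLp.toLp 2 (y, t)

lemma mk_fst (y : L1) (t : ℝ) : (mk y t).fst = y := rfl

lemma mk_snd (y : L1) (t : ℝ) : (mk y t).snd = t := rfl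

lemma norm_sq (x : X1) : ‖x‖ ^ 2 = ‖x.fst‖ ^ 2 + x.snd ^ 2 := by
  rw [WithLp.prod_norm_sq_eq_of_L2, Real.norm_eq_abs, sq_abs]

/-- A unit coordinate vector times a scalar. -/
def sg (n : ℕ) (c : ℝ) : L1 := lp.single 1 n c

lemma norm_sg (n : ℕ) (c : ℝ) : ‖sg n c‖ = |c| := by
  rw [sg, lp.norm_single (by norm_num), Real.norm_eq_abs]

/-- Splitting off one coordinate. -/
lemma norm_split (y : L1) (n : ℕ) : ‖y‖ = ‖y - sg n (y n)‖ + |y n| := by
  have h := lp.norm_sub_norm_compl_sub_single (p := 1) (by norm_num) y {n}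
  simp only [ENNReal.toReal_one, Real.rpow_one, Finset.sum_singleton] at h
  have h2 : ‖y - sg n (y n)‖ = ‖y - lp.single 1 n (y n)‖ := rfl
  rw [h2, ← Real.norm_eq_abs]
  linarith

lemma norm_add_sg (y : L1) (n : ℕ) (c : ℝ) : ‖y + sg n c‖ = ‖y‖ - |y n| + |y n + c| := by
  have h1 := norm_split y n
  have h2 := norm_split (y + sg n c) n
  have h3 : (y + sg n c : L1) n = y n + c := by
    have : (sg n c : L1) n = c := lp.single_apply_self _ _ _
    rw [lp.coeFn_add, Pi.add_apply, this]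
  have h4 : y + sg n c - sg n ((y + sg n c : L1) n) = y - sg n (y n) := by
    rw [h3]
    have : sg n (y n + c) = sg n (y n) + sg n c := lp.single_add _ _ _ _
    rw [this]
    abel
  rw [h4, h3] at h2
  linarith

lemma coord_tendsto (y : L1) : Tendsto (fun n => y n) atTop (𝓝 0) := by
  have h := (lp.memℓp y).summable (by norm_num)
  simp only [ENNReal.toReal_one, Real.rpow_one] at h
  have h2 := h.tendsto_atTop_zero
  exact tendsto_zero_iff_norm_tendsto_zero.2 h2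

lemma tendsto_norm_add_sg (y : L1) (c : ℝ) :
    Tendsto (fun n => ‖y + sg n c‖) atTop (𝓝 (‖y‖ + |c|)) := by
  simp only [norm_add_sg]
  have h := coord_tendsto y
  have h1 : Tendsto (fun n => ‖y‖ - |y n| + |y n + c|) atTop (𝓝 (‖y‖ - |0| + |0 + c|)) :=
    (tendsto_const_nhds.sub h.abs).add (h.add tendsto_const_nhds).abs
  simpa using h1

/-- Distinct points are at distance at least two. -/
def TwoSep {X : Type} [NormedAddCommGroup X] (D : Set X) : Prop :=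
  ∀ d ∈ D, ∀ d' ∈ D, d ≠ d' → 2 ≤ ‖d - d'‖

/-- Every point is within `ρ` of the set. -/
def RDense {X : Type} [NormedAddCommGroup X] (D : Set X) (ρ : ℝ) : Prop :=
  ∀ x : X, ∃ d ∈ D, ‖x - d‖ ≤ ρ

theorem lower (D : Set X1) (ρ : ℝ) (hsep : TwoSep D) (hd : RDense D ρ) : 4 / 3 ≤ ρ ^ 2 := by
  by_contra hcon
  push Not at hcon
  obtain ⟨d0, hd0, h0⟩ := hd 0
  have hρ : 0 ≤ ρ := (norm_nonneg _).trans h0
  set σ : ℝ := Real.sqrt ((ρ ^ 2 + 4 / 3) / 2) with hσ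
  have hσ0 : 0 ≤ σ := Real.sqrt_nonneg _
  have hσsq : σ ^ 2 = (ρ ^ 2 + 4 / 3) / 2 := Real.sq_sqrt (by positivity)
  have hσpos : 0 < σ := by
    rw [hσ]
    apply Real.sqrt_pos.2
    positivity
  -- the second point
  obtain ⟨d1, hd1, h1⟩ := hd (d0 + mk 0 σ)
  set y1 : L1 := (d1 - d0).fst with hy1
  set t1 : ℝ := (d1 - d0).snd with ht1
  have e1 : ‖d0 + mk 0 σ - d1‖ ^ 2 = ‖y1‖ ^ 2 + (σ - t1) ^ 2 := by
    have : d0 + mk 0 σ - d1 = mk 0 σ - (d1 - d0) := by abel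
    rw [this, norm_sq]
    have f1 : (mk 0 σ - (d1 - d0)).fst = -y1 := by
      rw [WithLp.sub_fst, mk_fst, zero_sub]
    have f2 : (mk 0 σ - (d1 - d0)).snd = σ - t1 := by
      rw [WithLp.sub_snd, mk_snd]
    rw [f1, f2, norm_neg]
  have e1' : ‖y1‖ ^ 2 + (σ - t1) ^ 2 ≤ ρ ^ 2 := by
    rw [← e1]
    gcongr
  have hne1 : d1 ≠ d0 := by
    intro h
    have f1 : y1 = 0 := by rw [hy1, h, sub_self]; rfl
    have f2 : t1 = 0 := by rw [ht1, h, sub_self]; rfl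
    rw [f1, f2] at e1'
    simp at e1'
    nlinarith
  have e2 : 4 ≤ ‖y1‖ ^ 2 + t1 ^ 2 := by
    have h := hsep d1 hd1 d0 hd0 hne1
    have h2 := norm_sq (d1 - d0)
    rw [← hy1, ← ht1] at h2
    rw [← h2]
    nlinarith
  -- the angle
  set K := ‖y1‖ with hK
  have hK0 : 0 ≤ K := norm_nonneg _
  have hcont : Continuous fun φ : ℝ => σ ^ 2 + K ^ 2 + t1 ^ 2 +
      2 * σ * (K * Real.sin φ - t1 * Real.cos φ) := by fun_prop
  obtain ⟨φ, hφ, hφv⟩ : ∃ φ ∈ Set.Icc (0 : ℝ) (Real.pi / 2), σ ^ 2 + K ^ 2 + t1 ^ 2 +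
      2 * σ * (K * Real.sin φ - t1 * Real.cos φ) = σ ^ 2 := by
    apply intermediate_value_Icc (by positivity) hcont.continuousOn
    constructor
    · simp only [Real.sin_zero, Real.cos_zero]
      nlinarith
    · simp only [Real.sin_pi_div_two, Real.cos_pi_div_two]
      nlinarith [mul_nonneg hσ0 hK0]
  set μ := σ * Real.sin φ with hμ
  set s := σ * Real.cos φ with hs
  have hsin : 0 ≤ Real.sin φ := Real.sin_nonneg_of_nonneg_of_le_pi hφ.1 (by
    have := Real.pi_pos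
    linarith [hφ.2])
  have hμ0 : 0 ≤ μ := by positivity
  have g1 : μ ^ 2 + s ^ 2 = σ ^ 2 := by
    rw [hμ, hs]
    have := Real.sin_sq_add_cos_sq φ
    nlinarith
  have g2 : (K + μ) ^ 2 + (s - t1) ^ 2 = σ ^ 2 := by
    have : (K + μ) ^ 2 + (s - t1) ^ 2 = (μ ^ 2 + s ^ 2) + K ^ 2 + t1 ^ 2 +
      2 * σ * (K * Real.sin φ - t1 * Real.cos φ) := by
      rw [hμ, hs]; ring
    rw [this, g1]
    exact hφv
  -- the third point
  have hlim : Tendsto (fun n => ‖-y1 + sg n μ‖ ^ 2 + (s - t1) ^ 2) atTop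
      (𝓝 ((K + μ) ^ 2 + (s - t1) ^ 2)) := by
    have h := tendsto_norm_add_sg (-y1) μ
    rw [norm_neg, abs_of_nonneg hμ0] at h
    exact (h.pow 2).add tendsto_const_nhds
  have hρσ : ρ ^ 2 < (K + μ) ^ 2 + (s - t1) ^ 2 := by rw [g2, hσsq]; linarith
  obtain ⟨n, hn⟩ := (hlim.eventually (lt_mem_nhds hρσ)).exists
  obtain ⟨d2, hd2, h2⟩ := hd (d0 + mk (sg n μ) s)
  set y2 : L1 := (d2 - d0).fst with hy2
  set t2 : ℝ := (d2 - d0).snd with ht2
  have e3 : ‖d0 + mk (sg n μ) s - d2‖ ^ 2 = ‖sg n μ - y2‖ ^ 2 + (s - t2) ^ 2 := by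
    have : d0 + mk (sg n μ) s - d2 = mk (sg n μ) s - (d2 - d0) := by abel
    rw [this, norm_sq]
    have f1 : (mk (sg n μ) s - (d2 - d0)).fst = sg n μ - y2 := by
      rw [WithLp.sub_fst, mk_fst]
    have f2 : (mk (sg n μ) s - (d2 - d0)).snd = s - t2 := by
      rw [WithLp.sub_snd, mk_snd]
    rw [f1, f2]
  have e3' : ‖sg n μ - y2‖ ^ 2 + (s - t2) ^ 2 ≤ ρ ^ 2 := by
    rw [← e3]
    gcongr
  have hsgn : ‖sg n μ‖ = μ := by rw [norm_sg, abs_of_nonneg hμ0]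
  have hne20 : d2 ≠ d0 := by
    intro h
    have f1 : y2 = 0 := by rw [hy2, h, sub_self]; rfl
    have f2 : t2 = 0 := by rw [ht2, h, sub_self]; rfl
    rw [f1, f2, sub_zero, sub_zero, hsgn, g1, hσsq] at e3'
    linarith
  have hne21 : d2 ≠ d1 := by
    intro h
    have f1 : y2 = y1 := by rw [hy2, h]
    have f2 : t2 = t1 := by rw [ht2, h]
    rw [f1, f2] at e3'
    have : sg n μ - y1 = -y1 + sg n μ := by abel
    rw [this] at e3'
    linarith
  set A := ‖sg n μ - y2‖ with hA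
  have hA0 : 0 ≤ A := norm_nonneg _
  have k1 : ‖y2‖ ≤ A + μ := by
    have : y2 = sg n μ - (sg n μ - y2) := by abel
    rw [this]
    refine (norm_sub_le _ _).trans ?_
    rw [hsgn]
    linarith
  have k2 : ‖y2 - y1‖ ≤ A + μ + K := (norm_sub_le _ _).trans (by linarith)
  have m1 : 4 ≤ (A + μ) ^ 2 + t2 ^ 2 := by
    have h := hsep d2 hd2 d0 hd0 hne20
    have h' := norm_sq (d2 - d0)
    rw [← hy2, ← ht2] at h'
    have h3 : ‖y2‖ ^ 2 ≤ (A + μ) ^ 2 := by gcongr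
    have h4 : 2 ^ 2 ≤ ‖d2 - d0‖ ^ 2 := by gcongr
    linarith
  have m2 : 4 ≤ (A + μ + K) ^ 2 + (t2 - t1) ^ 2 := by
    have h := hsep d2 hd2 d1 hd1 hne21
    have h' := norm_sq (d2 - d1)
    have f1 : (d2 - d1).fst = y2 - y1 := by
      rw [hy2, hy1, ← WithLp.sub_fst]
      congr 1
      abel
    have f2 : (d2 - d1).snd = t2 - t1 := by
      rw [ht2, ht1, ← WithLp.sub_snd]
      congr 1
      abel
    rw [f1, f2] at h'
    have h3 : ‖y2 - y1‖ ^ 2 ≤ (A + μ + K) ^ 2 := by gcongr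
    have h4 : 2 ^ 2 ≤ ‖d2 - d1‖ ^ 2 := by gcongr
    linarith
  have ident : (K ^ 2 + t1 ^ 2) + ((A + μ) ^ 2 + t2 ^ 2) + ((A + μ + K) ^ 2 + (t2 - t1) ^ 2) =
      3 * ((μ ^ 2 + s ^ 2) + ((K + μ) ^ 2 + (s - t1) ^ 2) + (A ^ 2 + (s - t2) ^ 2)) -
      ((A - μ - (K + μ)) ^ 2 + (t1 + t2 - 3 * s) ^ 2) := by ring
  rw [g1, g2, hσsq] at ident
  have q1 := sq_nonneg (A - μ - (K + μ))
  have q2 := sq_nonneg (t1 + t2 - 3 * s)
  linarith

end

end Pool.Agent.H96pack
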