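import Mathlib
import Pool.Agent.H96pack.Basic

open Filter Topology

namespace Pool.Agent.H96pack

noncomputable section

/-- The constant. -/
def r0 : ℝ := 2 / Real.sqrt 3

lemma r0_pos : 0 < r0 := by rw [r0]; positivity

lemma r0_sq : r0 ^ 2 = 4 / 3 := by
  rw [r0, div_pow, Real.sq_sqrt (by norm_num)]
  norm_num

lemma one_le_r0 : 1 ≤ r0 := by
  have h := r0_sq
  have h0 := r0_pos
  nlinarith

/-- Subgroups which can be extended. -/
def Good (D : AddSubgroup X1) (N : ℕ) : Prop :=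
  mk 0 2 ∈ D ∧ (∀ d ∈ D, ∀ i ≥ N, (d.fst : L1) i = 0) ∧ ∀ d ∈ D, d ≠ 0 → 2 ≤ ‖d‖

lemma norm_fst_le (x : X1) : ‖x.fst‖ ≤ ‖x‖ := by
  have h := norm_sq x
  have h1 := norm_nonneg x
  have h2 := norm_nonneg x.fst
  nlinarith [sq_nonneg x.snd]

lemma zsmul_fst (m : ℤ) (x : X1) : (m • x).fst = m • x.fst := rfl

lemma zsmul_snd (m : ℤ) (x : X1) : (m • x).snd = m • x.snd := rfl

lemma zsmul_coord (m : ℤ) (y : L1) (i : ℕ) : (m • y : L1) i = m * y i := by
  have : (m • y : L1) i = m • (y i) := rfl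
  rw [this, zsmul_eq_mul]

lemma good_init : Good (AddSubgroup.zmultiples (mk 0 2)) 0 := by
  refine ⟨AddSubgroup.mem_zmultiples _, ?_, ?_⟩
  · intro d hd i _
    obtain ⟨m, rfl⟩ := AddSubgroup.mem_zmultiples_iff.1 hd
    rw [zsmul_fst, mk_fst, smul_zero]
    rfl
  · intro d hd hne
    obtain ⟨m, rfl⟩ := AddSubgroup.mem_zmultiples_iff.1 hd
    have hm : m ≠ 0 := by
      rintro rfl
      exact hne (zero_smul _ _)
    have h := norm_sq (m • mk 0 2)
    rw [zsmul_fst, mk_fst, smul_zero, norm_zero, zsmul_snd, mk_snd, zsmul_eq_mul] at h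
    have h1 : (1 : ℝ) ≤ (m : ℝ) ^ 2 := by
      have : 1 ≤ m ^ 2 := by
        have := Int.one_le_abs hm
        nlinarith [sq_abs m, abs_nonneg m]
      exact_mod_cast this
    have h2 := norm_nonneg (m • mk 0 2)
    nlinarith

lemma step (D : AddSubgroup X1) (N : ℕ) (hG : Good D N) (p : X1) (M : ℕ)
    (hp : ∀ i ≥ M, (p.fst : L1) i = 0) :
    ∃ (D' : AddSubgroup X1) (N' : ℕ), Good D' N' ∧ D ≤ D' ∧ ∃ d ∈ D', ‖p - d‖ ≤ r0 := by
  by_cases hcov : ∃ d ∈ D, ‖p - d‖ ≤ r0
  · exact ⟨D, N, hG, le_rfl, hcov⟩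
  push Not at hcov
  obtain ⟨hG1, hG2, hG3⟩ := hG
  set n := max N M with hn
  have hr := r0_sq
  have hr0 := r0_pos
  have hr1 := one_le_r0
  set g : X1 := p + mk (sg n r0) 0 with hg
  have hgfst : g.fst = p.fst + sg n r0 := by rw [hg, WithLp.add_fst, mk_fst]
  have hgsnd : g.snd = p.snd := by rw [hg, WithLp.add_snd, mk_snd, add_zero]
  have hpn : (p.fst : L1) n = 0 := hp n (le_max_right _ _)
  have hDn : ∀ d ∈ D, (d.fst : L1) n = 0 := fun d hd => hG2 d hd n (le_max_left _ _)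
  -- distance from the new vector to the old group
  have key : ∀ d ∈ D, 2 ≤ ‖g - d‖ := by
    intro d hd
    set a := ‖p.fst - d.fst‖ with ha
    set b := p.snd - d.snd with hb
    have ha0 : 0 ≤ a := norm_nonneg _
    have h1 : ‖g - d‖ ^ 2 = (a + r0) ^ 2 + b ^ 2 := by
      rw [norm_sq, WithLp.sub_fst, WithLp.sub_snd, hgfst, hgsnd]
      have e1 : p.fst + sg n r0 - d.fst = (p.fst - d.fst) + sg n r0 := by abel
      have e2 : (p.fst - d.fst : L1) n = 0 := by
        rw [lp.coeFn_sub, Pi.sub_apply, hpn, hDn d hd, sub_zero]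
      rw [e1, norm_add_sg, e2, abs_zero, sub_zero, zero_add, abs_of_pos hr0]
    have h2 : 4 / 3 < a ^ 2 + b ^ 2 := by
      have h3 := hcov d hd
      have h4 : ‖p - d‖ ^ 2 = a ^ 2 + b ^ 2 := by
        rw [norm_sq, WithLp.sub_fst, WithLp.sub_snd]
      rw [← h4, ← hr]
      gcongr
    have h5 : 1 / 3 < a ^ 2 := by
      -- move to the nearest translate
      set m : ℤ := round (b / 2) with hm
      have hmem : d + m • mk 0 2 ∈ D := D.add_mem hd (D.zsmul_mem hG1 m)
      have h3 := hcov _ hmem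
      have h4 : ‖p - (d + m • mk 0 2)‖ ^ 2 = a ^ 2 + (b - 2 * m) ^ 2 := by
        rw [norm_sq, WithLp.sub_fst, WithLp.sub_snd, WithLp.add_fst, WithLp.add_snd, zsmul_fst,
          zsmul_snd, mk_fst, mk_snd, smul_zero, add_zero, zsmul_eq_mul]
        congr 2
        rw [hb]
        ring
      have h6 : |b / 2 - m| ≤ 1 / 2 := abs_sub_round (b / 2)
      have h7 : (b - 2 * m) ^ 2 ≤ 1 := by
        rw [abs_le] at h6
        nlinarith
      have h8 : r0 ^ 2 < ‖p - (d + m • mk 0 2)‖ ^ 2 := by gcongr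
      rw [h4, hr] at h8
      linarith
    have h9 : 2 / 3 < a * r0 := by
      have : (2 / 3) ^ 2 < (a * r0) ^ 2 := by
        rw [mul_pow, hr]
        linarith
      exact lt_of_pow_lt_pow_left₀ 2 (by positivity) this
    have h10 : (2 : ℝ) ^ 2 ≤ ‖g - d‖ ^ 2 := by
      rw [h1]
      nlinarith
    exact (pow_le_pow_iff_left₀ (by norm_num) (norm_nonneg _) two_ne_zero).1 h10
  refine ⟨D ⊔ AddSubgroup.zmultiples g, n + 1, ⟨?_, ?_, ?_⟩, le_sup_left, g,
    AddSubgroup.mem_sup_right (AddSubgroup.mem_zmultiples g), ?_⟩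
  · exact AddSubgroup.mem_sup_left hG1
  · intro e he i hi
    obtain ⟨d, hd, k, hk, rfl⟩ := AddSubgroup.mem_sup.1 he
    obtain ⟨m, rfl⟩ := AddSubgroup.mem_zmultiples_iff.1 hk
    have e1 : (d.fst : L1) i = 0 := hG2 d hd i (by omega)
    have e2 : (p.fst : L1) i = 0 := hp i (by omega)
    have e3 : (sg n r0 : L1) i = 0 := lp.single_apply_ne _ _ _ (by omega)
    rw [WithLp.add_fst, zsmul_fst, hgfst, lp.coeFn_add, Pi.add_apply, e1, zero_add, zsmul_coord,
      lp.coeFn_add, Pi.add_apply, e2, e3, add_zero, mul_zero]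
  · intro e he hne
    obtain ⟨d, hd, k, hk, rfl⟩ := AddSubgroup.mem_sup.1 he
    obtain ⟨m, rfl⟩ := AddSubgroup.mem_zmultiples_iff.1 hk
    by_cases hm0 : m = 0
    · subst hm0
      rw [zero_smul, add_zero] at hne ⊢
      exact hG3 d hd hne
    by_cases hm1 : m = 1
    · subst hm1
      have := key (-d) (D.neg_mem hd)
      have e1 : d + (1 : ℤ) • g = g - -d := by rw [one_smul]; abel
      rw [e1]
      exact this
    by_cases hm2 : m = -1
    · subst hm2
      have := key d hd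
      have e1 : d + (-1 : ℤ) • g = -(g - d) := by rw [neg_smul, one_smul]; abel
      rw [e1, norm_neg]
      exact this
    · have hm : 2 ≤ |m| := by
        by_contra hlt
        push Not at hlt
        have h1 := abs_lt.1 hlt
        omega
      refine le_trans ?_ (norm_fst_le _)
      have e1 : (d + m • g).fst = (d.fst + m • p.fst) + sg n (m * r0) := by
        rw [WithLp.add_fst, zsmul_fst, hgfst, smul_add, ← add_assoc]
        congr 1
        ext i
        by_cases hi : i = n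
        · subst hi
          have f1 : (sg n r0 : L1) n = r0 := lp.single_apply_self _ _ _
          have f2 : (sg n (m * r0) : L1) n = m * r0 := lp.single_apply_self _ _ _
          rw [zsmul_coord, f1, f2]
        · have f1 : (sg n r0 : L1) i = 0 := lp.single_apply_ne _ _ _ hi
          have f2 : (sg n (m * r0) : L1) i = 0 := lp.single_apply_ne _ _ _ hi
          rw [zsmul_coord, f1, f2, mul_zero]
      have e2 : (d.fst + m • p.fst : L1) n = 0 := by
        rw [lp.coeFn_add, Pi.add_apply, zsmul_coord, hDn d hd, hpn, mul_zero, add_zero]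
      rw [e1, norm_add_sg, e2, abs_zero, sub_zero, zero_add, abs_mul, abs_of_pos hr0]
      have h2 : (2 : ℝ) ≤ |(m : ℝ)| := by
        rw [← Int.cast_abs]
        exact_mod_cast hm
      have h3 := norm_nonneg (d.fst + m • p.fst)
      nlinarith
  · have e1 : p - g = -mk (sg n r0) 0 := by rw [hg]; abel
    rw [e1, norm_neg]
    have h := norm_sq (mk (sg n r0) 0)
    rw [mk_fst, mk_snd, norm_sg, abs_of_pos hr0] at h
    have h2 : ‖mk (sg n r0) 0‖ ^ 2 = r0 ^ 2 := by rw [h]; ring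
    exact le_of_eq ((pow_left_inj₀ (norm_nonneg _) hr0.le two_ne_zero).1 h2)

/-- Finitely supported rational points. -/
def pt (q : (ℕ →₀ ℚ) × ℚ) : X1 := mk (∑ i ∈ q.1.support, sg i (q.1 i : ℝ)) (q.2 : ℝ)

lemma pt_supp (q : (ℕ →₀ ℚ) × ℚ) : ∃ M, ∀ i ≥ M, ((pt q).fst : L1) i = 0 := by
  obtain ⟨M, hM⟩ := q.1.support.bddAbove
  refine ⟨M + 1, fun i hi => ?_⟩
  rw [pt, mk_fst, lp.coeFn_sum, Finset.sum_apply]
  apply Finset.sum_eq_zero
  intro j hj
  have := hM hj
  exact lp.single_apply_ne _ _ _ (by omega)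

lemma pt_dense (x : X1) (ε : ℝ) (hε : 0 < ε) : ∃ q, ‖x - pt q‖ < ε := by
  -- finite approximation
  have h1 := lp.hasSum_single (p := 1) (by norm_num) x.fst
  rw [HasSum, SummationFilter.unconditional_filter, Metric.tendsto_atTop] at h1
  obtain ⟨s, hs⟩ := h1 (ε / 4) (by positivity)
  have hs' := hs s le_rfl
  rw [dist_eq_norm] at hs'
  -- rational approximation
  have hc : (0 : ℝ) < ε / (4 * (s.card + 1)) := by positivity
  have h2 : ∀ i, ∃ r : ℚ, |x.fst i - r| < ε / (4 * (s.card + 1)) :=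
    fun i => exists_rat_near _ hc
  choose r hr using h2
  obtain ⟨t, ht⟩ := exists_rat_near x.snd (show (0 : ℝ) < ε / 4 by positivity)
  let f : ℕ →₀ ℚ := Finsupp.onFinset s (fun i => if i ∈ s then r i else 0) (by
    intro i hi
    by_contra h
    exact hi (if_neg h))
  have hf : ∑ i ∈ f.support, sg i (f i : ℝ) = ∑ i ∈ s, sg i (r i : ℝ) := by
    rw [Finset.sum_subset (Finsupp.support_onFinset_subset : f.support ⊆ s)]
    · apply Finset.sum_congr rfl
      intro i hi
      have : f i = r i := if_pos hi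
      rw [this]
    · intro i _ hi
      rw [Finsupp.notMem_support_iff.1 hi, Rat.cast_zero]
      exact lp.single_zero _ _
  refine ⟨(f, t), ?_⟩
  have e1 : (x - pt (f, t)).fst = (x.fst - ∑ i ∈ s, sg i (x.fst i)) +
      ∑ i ∈ s, sg i (x.fst i - r i) := by
    rw [WithLp.sub_fst, pt, mk_fst, hf]
    have : ∑ i ∈ s, sg i (x.fst i - r i) = ∑ i ∈ s, sg i (x.fst i) - ∑ i ∈ s, sg i (r i : ℝ) := by
      rw [← Finset.sum_sub_distrib]
      apply Finset.sum_congr rfl
      intro i _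
      exact lp.single_sub _ _ _ _
    rw [this]
    abel
  have e2 : (x - pt (f, t)).snd = x.snd - t := by
    rw [WithLp.sub_snd, pt, mk_snd]
  have b1 : ‖(x - pt (f, t)).fst‖ ≤ ε / 4 + ε / 4 := by
    rw [e1]
    refine (norm_add_le _ _).trans ?_
    gcongr
    · rw [norm_sub_rev]
      exact hs'.le
    · refine (norm_sum_le _ _).trans ?_
      have : ∀ i ∈ s, ‖sg i (x.fst i - r i)‖ ≤ ε / (4 * (s.card + 1)) := by
        intro i _
        rw [norm_sg]
        exact (hr i).le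
      refine (Finset.sum_le_card_nsmul _ _ _ this).trans ?_
      rw [nsmul_eq_mul, mul_div_assoc', div_le_div_iff₀ (by positivity) (by norm_num)]
      nlinarith
  have b2 : |(x - pt (f, t)).snd| ≤ ε / 4 := by
    rw [e2]
    exact ht.le
  have h3 := norm_sq (x - pt (f, t))
  have h4 : ‖x - pt (f, t)‖ ^ 2 < ε ^ 2 := by
    rw [h3, ← sq_abs (x - pt (f, t)).snd]
    have b3 := norm_nonneg (x - pt (f, t)).fst
    have b4 := abs_nonneg (x - pt (f, t)).snd
    nlinarith
  exact lt_of_pow_lt_pow_left₀ 2 hε.le h4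

theorem upper (ε : ℝ) (hε : 0 < ε) :
    ∃ D : AddSubgroup X1, TwoSep (D : Set X1) ∧ RDense (D : Set X1) (r0 + ε) := by
  obtain ⟨enum, henum⟩ := exists_surjective_nat ((ℕ →₀ ℚ) × ℚ)
  let Q := {q : AddSubgroup X1 × ℕ // Good q.1 q.2}
  have hstep : ∀ (j : ℕ) (q : Q), ∃ q' : Q, q.1.1 ≤ q'.1.1 ∧
      ∃ d ∈ q'.1.1, ‖pt (enum j) - d‖ ≤ r0 := by
    intro j q
    obtain ⟨M, hM⟩ := pt_supp (enum j)
    obtain ⟨D', N', h1, h2, h3⟩ := step q.1.1 q.1.2 q.2 (pt (enum j)) M hM
    exact ⟨⟨(D', N'), h1⟩, h2, h3⟩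
  choose next hn1 hn2 using hstep
  let ch : ℕ → Q := fun j => Nat.rec ⟨(AddSubgroup.zmultiples (mk 0 2), 0), good_init⟩ next j
  have hch : ∀ j, ch (j + 1) = next j (ch j) := fun j => rfl
  have hmono : Monotone fun j => (ch j).1.1 := by
    apply monotone_nat_of_le_succ
    intro j
    rw [hch]
    exact hn1 j _
  have hmem : ∀ x, x ∈ (⨆ j, (ch j).1.1 : AddSubgroup X1) ↔ ∃ j, x ∈ (ch j).1.1 := by
    intro x
    exact AddSubgroup.mem_iSup_of_directed hmono.directed_le
  refine ⟨⨆ j, (ch j).1.1, ?_, ?_⟩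
  · intro d hd d' hd' hne
    have hsub := AddSubgroup.sub_mem _ hd hd'
    obtain ⟨j, hj⟩ := (hmem _).1 hsub
    exact (ch j).2.2.2 _ hj (sub_ne_zero.2 hne)
  · intro x
    obtain ⟨q, hq⟩ := pt_dense x ε hε
    obtain ⟨j, rfl⟩ := henum q
    obtain ⟨d, hd, hdn⟩ := hn2 j (ch j)
    refine ⟨d, (hmem d).2 ⟨j + 1, by rw [hch]; exact hd⟩, ?_⟩
    have : x - d = (x - pt (enum j)) + (pt (enum j) - d) := by abel
    rw [this]
    refine (norm_add_le _ _).trans ?_
    linarith

end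

end Pool.Agent.H96pack
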